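import Mathlib

/-!
The integers `2 ^ (2 ^ m - 1) - 1` for `m ≥ 3` are odd, are not a power of two plus a prime,
and are not covered.  The first point uses Fermat factors of `2 ^ (2 ^ m) - 1` (the device of
Crocker).  The second is clear, since subtracting `2 ^ (2 ^ m - 1)` leaves `-1`.
-/

set_option autoImplicit false

namespace Pool.Agent.Results.MP_d59f78_nt.UncoveredInfinite

/-- A Fermat number `2 ^ (2 ^ s) + 1` divides `2 ^ (2 ^ m) - 1` if `s < m`. -/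
lemma fermat_dvd {s m : ℕ} (h : s < m) : 2 ^ (2 ^ s) + 1 ∣ 2 ^ (2 ^ m) - 1 := by
  have h1 : 2 ^ (2 ^ (s + 1)) - 1 ∣ 2 ^ (2 ^ m) - 1 := by
    apply Nat.pow_sub_one_dvd_pow_sub_one 2
    exact pow_dvd_pow 2 h
  refine Dvd.dvd.trans ?_ h1
  have h2 : 2 ^ (2 ^ (s + 1)) - 1 = (2 ^ (2 ^ s) + 1) * (2 ^ (2 ^ s) - 1) := by
    have h3 : (2 : ℕ) ^ (2 ^ (s + 1)) = (2 ^ (2 ^ s)) ^ 2 := by
      rw [← pow_mul, ← pow_succ]
    rw [h3]
    have := Nat.sq_sub_sq (2 ^ (2 ^ s)) 1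
    simpa using this
  exact ⟨_, h2⟩

/-- For `m ≥ 3` the number `2 ^ (2 ^ m - 1) - 1` is not a power of two plus a prime. -/
lemma not_representable {m : ℕ} (hm : 3 ≤ m) (k p : ℕ) (hp : p.Prime) :
    2 ^ (2 ^ m - 1) - 1 ≠ 2 ^ k + p := by
  intro h
  have hM8 : 8 ≤ 2 ^ m := by
    calc 8 = 2 ^ 3 := by norm_num
      _ ≤ 2 ^ m := Nat.pow_le_pow_right (by norm_num) hm
  obtain ⟨M, hM⟩ : ∃ M, M = 2 ^ m := ⟨_, rfl⟩
  rw [← hM] at h hM8
  have hpow1 : 1 ≤ 2 ^ (M - 1) := Nat.one_le_two_pow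
  have h' : 2 ^ (M - 1) = 2 ^ k + p + 1 := by omega
  have hk : k < M - 1 := by
    by_contra hcon
    have : 2 ^ (M - 1) ≤ 2 ^ k := Nat.pow_le_pow_right (by norm_num) (by omega)
    omega
  obtain ⟨d, hd⟩ : ∃ d, d = M - 1 - k := ⟨_, rfl⟩
  have hd0 : d ≠ 0 := by omega
  obtain ⟨s, r, hr, hdr⟩ := Nat.exists_eq_two_pow_mul_odd hd0
  have hr1 : 1 ≤ r := hr.pos
  have hs : s < m := by
    have h1 : 2 ^ s ≤ d := by
      rw [hdr]
      exact Nat.le_mul_of_pos_right _ hr1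
    have h2 : 2 ^ s < 2 ^ m := by omega
    exact (Nat.pow_lt_pow_iff_right (by norm_num)).1 h2
  -- the Fermat number divides `2 ^ M - 1` and `2 ^ d + 1`
  have hF1 : 2 ^ (2 ^ s) + 1 ∣ 2 ^ M - 1 := by
    rw [hM]
    exact fermat_dvd hs
  have hF2 : 2 ^ (2 ^ s) + 1 ∣ 2 ^ d + 1 := by
    have := Odd.nat_add_dvd_pow_add_pow (2 ^ (2 ^ s)) 1 hr
    rw [hdr, pow_mul]
    simpa using this
  have hsum : 2 ^ M - 1 = p + 2 ^ k * (2 ^ d + 1) := by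
    have e1 : 2 ^ k * 2 ^ d = 2 ^ (M - 1) := by
      rw [← pow_add]
      congr 1
      omega
    have e2 : 2 ^ M = 2 * 2 ^ (M - 1) := by
      rw [← pow_succ']
      congr 1
      omega
    rw [mul_add, e1, e2]
    omega
  have hFp : 2 ^ (2 ^ s) + 1 ∣ p := by
    rw [hsum] at hF1
    exact (Nat.dvd_add_left (Dvd.dvd.mul_left hF2 _)).1 hF1
  have hF : 2 ^ (2 ^ s) + 1 = p := by
    rcases (Nat.dvd_prime hp).1 hFp with h1 | h1
    · have : 1 ≤ 2 ^ (2 ^ s) := Nat.one_le_two_pow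
      omega
    · exact h1
  -- size comparison
  have hs2 : 2 * 2 ^ s ≤ M := by
    rw [hM, ← pow_succ']
    exact Nat.pow_le_pow_right (by norm_num) hs
  have hsize1 : 4 * 2 ^ (2 ^ s) ≤ 2 ^ (M - 2) := by
    calc 4 * 2 ^ (2 ^ s) = 2 ^ (2 + 2 ^ s) := by rw [pow_add]; norm_num
      _ ≤ 2 ^ (M - 2) := Nat.pow_le_pow_right (by norm_num) (by omega)
  have hsize2 : 2 ^ k ≤ 2 ^ (M - 2) := Nat.pow_le_pow_right (by norm_num) (by omega)
  have hsize3 : 2 ^ (M - 1) = 2 * 2 ^ (M - 2) := by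
    rw [← pow_succ']
    congr 1
    omega
  have hsize4 : 2 ≤ 2 ^ (2 ^ s) := by
    calc 2 = 2 ^ 1 := by norm_num
      _ ≤ 2 ^ (2 ^ s) := Nat.pow_le_pow_right (by norm_num) Nat.one_le_two_pow
  omega

/-- There are infinitely many odd integers `n ≥ 3` that are not of the form `2 ^ k + p` with
`p` prime and for which no finite set `Q` of primes has the property that every `n - 2 ^ k`
(`k ≥ 0`) is divisible by a member of `Q`. -/
theorem result :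
    {n : ℤ | 3 ≤ n ∧ Odd n ∧
      (¬ ∃ k p : ℕ, p.Prime ∧ n = 2 ^ k + (p : ℤ)) ∧
      (¬ ∃ Q : Finset ℕ, (∀ q ∈ Q, q.Prime) ∧
        ∀ k : ℕ, ∃ q ∈ Q, (q : ℤ) ∣ n - 2 ^ k)}.Infinite := by
  refine Set.infinite_of_injective_forall_mem
    (f := fun m : ℕ => (2 : ℤ) ^ (2 ^ (m + 3) - 1) - 1) ?_ ?_
  · intro a b hab
    simp only [sub_left_inj] at hab
    have h1 : (2 : ℕ) ^ (2 ^ (a + 3) - 1) = 2 ^ (2 ^ (b + 3) - 1) := by exact_mod_cast hab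
    have h2 : 2 ^ (a + 3) - 1 = 2 ^ (b + 3) - 1 := Nat.pow_right_injective (le_refl 2) h1
    have h3 : 1 ≤ 2 ^ (a + 3) := Nat.one_le_two_pow
    have h4 : 1 ≤ 2 ^ (b + 3) := Nat.one_le_two_pow
    have h5 : 2 ^ (a + 3) = 2 ^ (b + 3) := by omega
    have h6 : a + 3 = b + 3 := Nat.pow_right_injective (le_refl 2) h5
    omega
  · intro m
    have hM8 : 8 ≤ 2 ^ (m + 3) := by
      calc 8 = 2 ^ 3 := by norm_num
        _ ≤ 2 ^ (m + 3) := Nat.pow_le_pow_right (by norm_num) (by omega)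
    obtain ⟨e, he⟩ : ∃ e, 2 ^ (m + 3) - 1 = e + 2 := ⟨2 ^ (m + 3) - 1 - 2, by omega⟩
    refine ⟨?_, ?_, ?_, ?_⟩
    · rw [he]
      have : (1 : ℤ) ≤ 2 ^ e := one_le_pow₀ (by norm_num)
      rw [pow_add]
      linarith
    · rw [he]
      refine Even.sub_odd ?_ odd_one
      exact (Even.pow_of_ne_zero even_two (by omega))
    · rintro ⟨k, p, hp, h⟩
      refine not_representable (m := m + 3) (by omega) k p hp ?_
      have h1 : 1 ≤ 2 ^ (2 ^ (m + 3) - 1) := Nat.one_le_two_pow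
      zify [h1]
      exact h
    · rintro ⟨Q, hQ, h⟩
      obtain ⟨q, hq, hdvd⟩ := h (2 ^ (m + 3) - 1)
      have h1 : (2 : ℤ) ^ (2 ^ (m + 3) - 1) - 1 - 2 ^ (2 ^ (m + 3) - 1) = -1 := by ring
      rw [h1] at hdvd
      have h2 : (q : ℤ) ∣ 1 := (Int.dvd_neg).1 hdvd
      have h3 : q ∣ 1 := by exact_mod_cast h2
      exact (hQ q hq).one_lt.ne' (Nat.dvd_one.1 h3)

end Pool.Agent.Results.MP_d59f78_nt.UncoveredInfinite
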